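import Pool.Agent.H.MP_037a8f_lc.A

namespace Pool.Agent.Results.MP_69b7b0_lc.No
open Pool.Agent.H.MP_037a8f_lc BT

/-- A single rotation somewhere in the tree. -/
inductive Rot : BT → BT → Prop
  | right (l a m b r) : Rot (node (node l a m) b r) (node l a (node m b r))
  | left (l a m b r) : Rot (node l a (node m b r)) (node (node l a m) b r)
  | inL {l l'} (a r) : Rot l l' → Rot (node l a r) (node l' a r)
  | inR {r r'} (l a) : Rot r r' → Rot (node l a r) (node l a r')

/-- A sequence of `k` rotations. -/
inductive RotN : ℕ → BT → BT → Prop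
  | refl (T) : RotN 0 T T
  | step {k T T' T''} : Rot T T' → RotN k T' T'' → RotN (k + 1) T T''

/-- `Off T σ D`: some offline algorithm serves `σ` from the tree `T` at total cost `D`. -/
inductive Off : BT → List ℕ → ℕ → Prop
  | nil (T) : Off T [] 0
  | cons {T T' k x σ D} : RotN k T T' → Off T' σ D → Off T (x :: σ) (depth x T + 1 + k + D)

lemma Rot.symm {T T'} (h : Rot T T') : Rot T' T := by
  induction h with
  | right => exact .left ..
  | left => exact .right ..
  | inL a r _ ih => exact .inL a r ih
  | inR l a _ ih => exact .inR l a ih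

def spine (l : List ℕ) : BT := l.foldr (fun a T => node nil a T) nil

lemma toSpine (T : BT) : Relation.ReflTransGen Rot T (spine (keys T)) := by
  have key : ∀ l a r, Relation.ReflTransGen Rot r (spine (keys r)) →
      Relation.ReflTransGen Rot (node l a r) (spine (keys (node l a r))) := by
    intro l
    induction l with
    | nil =>
      intro a r h
      have : ∀ S, Relation.ReflTransGen Rot r S →
          Relation.ReflTransGen Rot (node nil a r) (node nil a S) := by
        intro S hS
        induction hS with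
        | refl => exact .refl
        | tail _ h ih => exact .tail ih (.inR _ _ h)
      exact this _ h
    | node l₁ b l₂ ih₁ ih₂ =>
      intro a r h
      have := ih₁ b _ (ih₂ a r h)
      refine .head (.right ..) ?_
      simpa [keys] using this
  induction T with
  | nil => exact .refl
  | node l a r _ ihr => exact key l a r ihr

lemma conn {T S : BT} (h : keys T = keys S) : ∃ k, RotN k T S := by
  have h1 : Relation.ReflTransGen Rot T S := by
    refine (toSpine T).trans ?_
    rw [h]
    have : ∀ U, Relation.ReflTransGen Rot S U → Relation.ReflTransGen Rot U S := by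
      intro U hU
      induction hU with
      | refl => exact .refl
      | tail _ h ih => exact .head h.symm ih
    exact this _ (toSpine S)
  clear h
  induction h1 using Relation.ReflTransGen.head_induction_on with
  | refl => exact ⟨0, .refl _⟩
  | head h _ ih => obtain ⟨k, hk⟩ := ih; exact ⟨k + 1, .step h hk⟩

lemma off_static (S : BT) (σ : List ℕ) : Off S σ (static S σ) := by
  induction σ with
  | nil => exact .nil _
  | cons x σ ih => exact Off.cons (.refl S) ih

theorem result (step : (ℕ → ℕ) → ℕ → BT → BT × ℕ) (hs : Lazy step) (C : ℝ) :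
    ∃ (n : ℕ) (T₀ : BT) (σ : List ℕ) (D : ℕ), 2 ≤ n ∧ IsBST n T₀ ∧ (∀ x ∈ σ, 1 ≤ x ∧ x ≤ n) ∧
      Off T₀ σ D ∧ C * Real.log n * D + C * n < run step T₀ [] σ := by
  obtain ⟨h, h2, hh⟩ := exists_h |C| (abs_nonneg C)
  obtain ⟨n, hn⟩ : ∃ n, 2 ^ h = n + 1 := ⟨2 ^ h - 1, by have := Nat.one_le_two_pow (n := h); omega⟩
  have hn1 : 2 ≤ n := by
    have := Nat.pow_le_pow_right (show 0 < 2 by norm_num) h2
    omega
  obtain ⟨k, hk⟩ := conn (T := Z true 1 n) (S := bal h 1) (by rw [keys_Z, keys_bal, hn]; rfl)
  obtain ⟨K, hK⟩ := exists_nat_gt (|C| * h * (n + k) + |C| * n)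
  obtain ⟨D, hD, hD'⟩ : ∃ D, Off (Z true 1 n) (rep n K) D ∧
      D ≤ n + k + static (bal h 1) (rep n K) := by
    cases rep n K with
    | nil => exact ⟨0, .nil _, by omega⟩
    | cons x σ =>
      refine ⟨_, .cons hk (off_static _ σ), ?_⟩
      have := depth_le x (Z true 1 n)
      rw [keys_Z, List.length_range'] at this
      simp only [static, List.map_cons, List.sum_cons]
      omega
  refine ⟨n, Z true 1 n, rep n K, D, hn1, keys_Z _ _ _, fun x hx => mem_rep hx, hD, ?_⟩
  have e1 : (2 : ℝ) * run step (Z true 1 n) [] (rep n K) = K * (n * (n + 1)) := by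
    exact_mod_cast run_rep hs n K
  have e2 : (D : ℝ) ≤ n + k + K * n * (h + 1) := by
    have := static_bal h 1 (rep n K)
    rw [length_rep] at this
    exact_mod_cast hD'.trans (Nat.add_le_add_left this _)
  have e3 : (2 : ℝ) ^ h = n + 1 := by exact_mod_cast hn
  have e4 : (2 : ℝ) ≤ n := by exact_mod_cast hn1
  have e5 : (0 : ℝ) ≤ K := Nat.cast_nonneg K
  have e6 : (0 : ℝ) ≤ h := Nat.cast_nonneg h
  have l0 : 0 ≤ Real.log n := Real.log_nonneg (by linarith)
  have l1 : Real.log n ≤ h := by
    refine (Real.log_le_log (by linarith) (show (n : ℝ) ≤ 2 ^ h by linarith)).trans ?_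
    rw [Real.log_pow]
    nlinarith [Real.log_two_lt_d9]
  have e7 : C * Real.log n * D ≤ |C| * h * (n + k + K * n * (h + 1)) :=
    mul_le_mul (mul_le_mul (le_abs_self C) l1 l0 (abs_nonneg C)) e2 (Nat.cast_nonneg _)
      (by positivity)
  have e9 : C * n ≤ |C| * n := mul_le_mul_of_nonneg_right (le_abs_self C) (by linarith)
  rw [e3] at hh
  have e8 := mul_le_mul_of_nonneg_left hh (show (0 : ℝ) ≤ K * n by positivity)
  have e10 : 0 ≤ |C| * (K * n * (h + 1)) := by positivity
  nlinarith

end Pool.Agent.Results.MP_69b7b0_lc.No
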